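import Pool.Agent.Helper90.MA.OmT

/-!
# Project HA, module PS-3: sequences without convergent subsequences give many points
-/

set_option autoImplicit false

namespace Pool.Agent.Helper69.HA

open Set Filter

section tree

variable {X : Type} [TopologicalSpace X]

/-- The cluster points of the sequence `x` along `A`. -/
private def LL (x : ℕ → X) (A : Set ℕ) : Set X := ⋂ n : ℕ, closure (x '' (A ∩ Ici n))

private theorem LL_closed (x : ℕ → X) (A : Set ℕ) : IsClosed (LL x A) :=
  isClosed_iInter fun _ => isClosed_closure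

private theorem LL_range (x : ℕ → X) (A : Set ℕ) : LL x A ⊆ closure (range x) := by
  intro y hy
  exact closure_mono (image_subset_range _ _) (mem_iInter.1 hy 0)

private theorem LL_nonempty [CompactSpace X] (x : ℕ → X) {A : Set ℕ} (hA : A.Infinite) :
    (LL x A).Nonempty := by
  refine IsCompact.nonempty_iInter_of_directed_nonempty_isCompact_isClosed _ ?_ ?_ ?_ ?_
  · refine Antitone.directed_ge (α := ℕ) fun m n hmn => ?_
    exact closure_mono (image_mono (inter_subset_inter_right _ (Ici_subset_Ici.2 hmn)))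
  · intro n
    obtain ⟨m, hm, hmn⟩ := hA.exists_gt n
    exact ⟨x m, subset_closure ⟨m, ⟨hm, hmn.le⟩, rfl⟩⟩
  · intro n
    exact isClosed_closure.isCompact
  · intro n
    exact isClosed_closure

private theorem LL_mono (x : ℕ → X) {A B : Set ℕ} (h : (A \ B).Finite) : LL x A ⊆ LL x B := by
  obtain ⟨m, hm⟩ := h.bddAbove
  intro y hy
  refine mem_iInter.2 fun n => ?_
  refine closure_mono (image_mono ?_) (mem_iInter.1 hy (max n (m + 1)))
  rintro a ⟨ha, ha'⟩
  have h1 : max n (m + 1) ≤ a := ha'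
  refine ⟨?_, (le_max_left _ _).trans h1⟩
  by_contra hb
  have h2 := hm ⟨ha, hb⟩
  have h3 : m + 1 ≤ a := (le_max_right _ _).trans h1
  omega

private theorem LL_sub (x : ℕ → X) {A : Set ℕ} {U : Set X} (hU : ∀ n ∈ A, x n ∈ U) :
    LL x A ⊆ closure U := by
  intro y hy
  refine closure_mono ?_ (mem_iInter.1 hy 0)
  rintro z ⟨n, hn, rfl⟩
  exact hU n hn.1

private theorem LL_inf (x : ℕ → X) {A : Set ℕ} {U : Set X} (hU : IsOpen U) {p : X} (hp : p ∈ U)
    (hpA : p ∈ LL x A) : {n | n ∈ A ∧ x n ∈ U}.Infinite := by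
  rw [Set.infinite_iff_exists_gt]
  intro N
  have h1 := mem_iInter.1 hpA (N + 1)
  obtain ⟨z, hz, n, hn, rfl⟩ := mem_closure_iff.1 h1 U hU hp
  exact ⟨n, ⟨hn.1, hz⟩, hn.2⟩

private theorem exists_split [CompactSpace X] [T2Space X] (x : ℕ → X)
    (hx : ∀ s : ℕ → ℕ, StrictMono s → ∀ y, ¬ Tendsto (x ∘ s) atTop (nhds y)) {A : Set ℕ}
    (hA : A.Infinite) : ∃ S : Bool → Set ℕ, (∀ b, (S b).Infinite ∧ S b ⊆ A) ∧
      Disjoint (LL x (S false)) (LL x (S true)) := by
  obtain ⟨p, hp⟩ := LL_nonempty x hA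
  have h1 : ∃ U : Set X, IsOpen U ∧ p ∈ U ∧ {n | n ∈ A ∧ x n ∉ U}.Infinite := by
    by_contra hcon
    push Not at hcon
    refine hx (Nat.nth (· ∈ A)) (Nat.nth_strictMono hA) p ?_
    rw [tendsto_nhds]
    intro U hU hpU
    have h2 : {n | n ∈ A ∧ x n ∉ U}.Finite := hcon U hU hpU
    obtain ⟨m, hm⟩ := h2.bddAbove
    rw [mem_atTop_sets]
    refine ⟨m + 1, fun k hk => ?_⟩
    change x (Nat.nth (· ∈ A) k) ∈ U
    by_contra hk'
    have h3 : Nat.nth (· ∈ A) k ≤ m := hm ⟨Nat.nth_mem_of_infinite hA k, hk'⟩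
    have h4 : k ≤ Nat.nth (· ∈ A) k := (Nat.nth_strictMono hA).id_le k
    omega
  obtain ⟨U, hU, hpU, hAU⟩ := h1
  obtain ⟨q, hq⟩ := LL_nonempty x hAU
  have hqU : q ∈ Uᶜ := by
    have h2 := LL_sub x (U := Uᶜ) (fun n hn => hn.2) hq
    rwa [hU.isClosed_compl.closure_eq] at h2
  have hpq : p ≠ q := fun h => hqU (h ▸ hpU)
  have hqA : q ∈ LL x A := LL_mono x (by
    have : {n | n ∈ A ∧ x n ∉ U} \ A = ∅ := by
      ext n
      simp only [Set.mem_sdiff, mem_ofPred_eq, mem_empty_iff_false, iff_false]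
      tauto
    rw [this]
    exact finite_empty) hq
  obtain ⟨V, hpV, hV, W, hqW, hW, hVW⟩ := exists_open_nhds_disjoint_closure hpq
  refine ⟨fun b => if b then {n | n ∈ A ∧ x n ∈ W} else {n | n ∈ A ∧ x n ∈ V}, ?_, ?_⟩
  · intro b
    cases b
    · exact ⟨LL_inf x hV hpV hp, fun n hn => hn.1⟩
    · exact ⟨LL_inf x hW hqW hqA, fun n hn => hn.1⟩
  · refine hVW.mono ?_ ?_
    · exact LL_sub x fun n hn => hn.2
    · exact LL_sub x fun n hn => hn.2

/-- Pseudo-intersections. -/
private theorem exists_pseudo (C : ℕ → Set ℕ) (h : ∀ n, {k | ∀ i ≤ n, k ∈ C i}.Infinite) :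
    ∃ B : Set ℕ, B.Infinite ∧ ∀ i, (B \ C i).Finite := by
  obtain ⟨φ, hφ, hφ'⟩ := extraction_forall_of_frequently (P := fun n k => ∀ i ≤ n, k ∈ C i)
    (fun n => Nat.frequently_atTop_iff_infinite.2 (h n))
  refine ⟨range φ, infinite_range_of_injective hφ.injective, fun i => ?_⟩
  refine ((finite_Iio i).image φ).subset ?_
  rintro _ ⟨⟨n, rfl⟩, hn⟩
  refine ⟨n, ?_, rfl⟩
  by_contra hi
  exact hn (hφ' n i (not_lt.1 hi))

open Classical in
/-- A pseudo-intersection of a family of sets. -/
private noncomputable def Psi (𝒞 : Set (Set ℕ)) : Set ℕ :=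
  if h : ∃ B : Set ℕ, B.Infinite ∧ ∀ C ∈ 𝒞, (B \ C).Finite then h.choose else univ

private theorem Psi_spec {𝒞 : Set (Set ℕ)}
    (h : ∃ B : Set ℕ, B.Infinite ∧ ∀ C ∈ 𝒞, (B \ C).Finite) :
    (Psi 𝒞).Infinite ∧ ∀ C ∈ 𝒞, (Psi 𝒞 \ C).Finite := by
  unfold Psi
  rw [dif_pos h]
  exact h.choose_spec

variable {Ω : Type} [LinearOrder Ω] [WellFoundedLT Ω]

/-- The sets along the branch `f`. -/
private noncomputable def AF (S : Set ℕ → Bool → Set ℕ) (f : Ω → Bool) : Ω → Set ℕ :=
  (wellFounded_lt (α := Ω)).fix fun a ih =>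
    Psi {C | ∃ b, ∃ h : b < a, C = S (ih b h) (f b)}

private theorem AF_eq (S : Set ℕ → Bool → Set ℕ) (f : Ω → Bool) (a : Ω) :
    AF S f a = Psi {C | ∃ b, b < a ∧ C = S (AF S f b) (f b)} := by
  unfold AF
  rw [WellFounded.fix_eq]
  congr 1
  ext C
  constructor
  · rintro ⟨b, h, rfl⟩
    exact ⟨b, h, rfl⟩
  · rintro ⟨b, h, rfl⟩
    exact ⟨b, h, rfl⟩

private theorem AF_spec (hc : ∀ a : Ω, (Iio a).Countable) {S : Set ℕ → Bool → Set ℕ}
    (hS : ∀ A : Set ℕ, A.Infinite → ∀ b, (S A b).Infinite ∧ S A b ⊆ A) (f : Ω → Bool) (a : Ω) :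
    (AF S f a).Infinite ∧ ∀ b < a, (AF S f a \ S (AF S f b) (f b)).Finite := by
  induction a using WellFoundedLT.induction with
  | _ a ih =>
    have key : ∃ B : Set ℕ, B.Infinite ∧
        ∀ C ∈ {C | ∃ b, b < a ∧ C = S (AF S f b) (f b)}, (B \ C).Finite := by
      rcases (Iio a).eq_empty_or_nonempty with he | hne
      · refine ⟨univ, infinite_univ, ?_⟩
        rintro C ⟨b, hb, -⟩
        exact absurd hb (by
          have : b ∉ Iio a := by rw [he]; exact notMem_empty b
          exact this)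
      · obtain ⟨e, he⟩ := (hc a).exists_eq_range hne
        have hea : ∀ n, e n < a := fun n => by
          have : e n ∈ Iio a := by rw [he]; exact mem_range_self n
          exact this
        have hdir : ∀ b b' : Ω, b ≤ b' → b' < a →
            (S (AF S f b') (f b') \ S (AF S f b) (f b)).Finite := by
          intro b b' hbb hb'
          rcases hbb.eq_or_lt with h | h
          · rw [h, sdiff_self]
            exact finite_empty
          · exact ((ih b' hb').2 b h).subset
              (sdiff_subset_sdiff_left (hS _ (ih b' hb').1 (f b')).2)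
        have hinf : ∀ n, {k | ∀ i ≤ n, k ∈ S (AF S f (e i)) (f (e i))}.Infinite := by
          intro n
          -- the largest of the first indices
          obtain ⟨i0, hi0, hmax⟩ := Finset.exists_max_image (Finset.range (n + 1)) e
            ⟨0, by simp⟩
          have h1 : (S (AF S f (e i0)) (f (e i0))).Infinite :=
            (hS _ (ih _ (hea i0)).1 _).1
          intro hfin
          apply h1
          have h2 : (⋃ i ∈ Finset.range (n + 1),
              (S (AF S f (e i0)) (f (e i0)) \ S (AF S f (e i)) (f (e i)))).Finite := by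
            refine Set.Finite.biUnion (Finset.finite_toSet _) fun i hi => ?_
            exact hdir _ _ (hmax i hi) (hea i0)
          refine (hfin.union h2).subset ?_
          intro k hk
          by_cases hk' : ∀ i ≤ n, k ∈ S (AF S f (e i)) (f (e i))
          · exact Or.inl hk'
          · push Not at hk'
            obtain ⟨i, hi, hki⟩ := hk'
            refine Or.inr ?_
            rw [mem_iUnion₂]
            exact ⟨i, Finset.mem_range.2 (by omega), hk, hki⟩
        obtain ⟨B, hB, hB'⟩ := exists_pseudo _ hinf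
        refine ⟨B, hB, ?_⟩
        rintro C ⟨b, hb, rfl⟩
        have hb' : b ∈ range e := by rw [← he]; exact hb
        obtain ⟨i, rfl⟩ := hb'
        exact hB' i
    have h := Psi_spec key
    rw [← AF_eq] at h
    exact ⟨h.1, fun b hb => h.2 _ ⟨b, hb, rfl⟩⟩

private theorem AF_congr (S : Set ℕ → Bool → Set ℕ) (f g : Ω → Bool) (a : Ω)
    (h : ∀ b < a, f b = g b) : AF S f a = AF S g a := by
  induction a using WellFoundedLT.induction with
  | _ a ih =>
    rw [AF_eq, AF_eq]
    congr 1
    ext C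
    constructor
    · rintro ⟨b, hb, rfl⟩
      exact ⟨b, hb, by rw [ih b hb fun c hc => h c (hc.trans hb), h b hb]⟩
    · rintro ⟨b, hb, rfl⟩
      exact ⟨b, hb, by rw [ih b hb fun c hc => h c (hc.trans hb), h b hb]⟩

private theorem tree_aux [CompactSpace X] [T2Space X] [Nonempty Ω]
    (hc : ∀ a : Ω, (Iio a).Countable) (x : ℕ → X)
    (hx : ∀ s : ℕ → ℕ, StrictMono s → ∀ y, ¬ Tendsto (x ∘ s) atTop (nhds y)) :
    ∃ F : (Ω → Bool) → X, Function.Injective F ∧ ∀ f, F f ∈ closure (range x) := by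
  have hsplit : ∀ A : Set ℕ, ∃ S : Bool → Set ℕ, A.Infinite →
      (∀ b, (S b).Infinite ∧ S b ⊆ A) ∧ Disjoint (LL x (S false)) (LL x (S true)) := by
    intro A
    by_cases hA : A.Infinite
    · obtain ⟨S, hS⟩ := exists_split x hx hA
      exact ⟨S, fun _ => hS⟩
    · exact ⟨fun _ => ∅, fun h => absurd h hA⟩
  choose S hS using hsplit
  have hS1 : ∀ A : Set ℕ, A.Infinite → ∀ b, (S A b).Infinite ∧ S A b ⊆ A :=
    fun A hA => (hS A hA).1
  have hspec := AF_spec hc hS1
  have hne : ∀ f : Ω → Bool, (⋂ a : Ω, LL x (S (AF S f a) (f a))).Nonempty := by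
    intro f
    refine IsCompact.nonempty_iInter_of_directed_nonempty_isCompact_isClosed _ ?_ ?_ ?_ ?_
    · refine Antitone.directed_ge (α := Ω) fun a b hab => ?_
      rcases hab.eq_or_lt with h | h
      · rw [h]
      · refine LL_mono x (((hspec f b).2 a h).subset ?_)
        exact sdiff_subset_sdiff_left (hS1 _ (hspec f b).1 _).2
    · intro a
      exact LL_nonempty x (hS1 _ (hspec f a).1 _).1
    · intro a
      exact (LL_closed x _).isCompact
    · intro a
      exact LL_closed x _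
  choose F hF using hne
  refine ⟨F, ?_, fun f => LL_range x _ (mem_iInter.1 (hF f) (Classical.arbitrary Ω))⟩
  intro f g hfg
  by_contra hne
  have hex : ∃ d, f d ≠ g d := by
    by_contra hcon
    push Not at hcon
    exact hne (funext hcon)
  obtain ⟨d, hd, hmin⟩ := WellFounded.has_min (wellFounded_lt (α := Ω)) {d | f d ≠ g d} hex
  have hag : ∀ b < d, f b = g b := by
    intro b hb
    by_contra h
    exact hmin b h hb
  have hA := AF_congr S f g d hag
  have h1 := mem_iInter.1 (hF f) d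
  have h2 := mem_iInter.1 (hF g) d
  rw [← hfg, ← hA] at h2
  have hdis := (hS _ (hspec f d).1).2
  have hd' : f d ≠ g d := hd
  rcases hfd : f d with _ | _
  · have hgd : g d = true := by
      rw [hfd] at hd'
      cases hg : g d
      · exact absurd hg.symm hd'
      · rfl
    rw [hfd] at h1
    rw [hgd] at h2
    exact Set.disjoint_left.1 hdis h1 h2
  · have hgd : g d = false := by
      rw [hfd] at hd'
      cases hg : g d
      · rfl
      · exact absurd hg.symm hd'
    rw [hfd] at h1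
    rw [hgd] at h2
    exact Set.disjoint_left.1 hdis h2 h1

end tree

/-- PS-3: a sequence without convergent subsequences in a compact Hausdorff space gives
`2 ^ ℵ₁` points. -/
theorem exists_tree {X : Type} [TopologicalSpace X] [CompactSpace X] [T2Space X] (x : ℕ → X)
    (hx : ∀ s : ℕ → ℕ, StrictMono s → ∀ y, ¬ Tendsto (x ∘ s) atTop (nhds y)) :
    ∃ F : ((Ordinal.omega.{0} 1).ToType → Bool) → X, Function.Injective F ∧
      ∀ f, F f ∈ closure (range x) := by
  have : Nonempty (Ordinal.omega.{0} 1).ToType := by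
    rw [← Cardinal.mk_ne_zero_iff, Pool.Agent.Helper52.MA.omT_card]
    exact (Cardinal.aleph_pos 1).ne'
  exact tree_aux Pool.Agent.Helper52.MA.omT_Iio x hx

end Pool.Agent.Helper69.HA
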